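import Mathlib
import Pool.Agent.TH932.S2.All
import Pool.Agent.TH932.S2.Merge
import Pool.Agent.TH932.S2.Rc3
import Pool.Agent.TH932.S2.Stms2

set_option autoImplicit false
set_option linter.unusedSectionVars false

/-!
# Representations of sums of a real number and of few terms with small coefficients
-/

namespace Pool.Agent.R473.TB

open Filter Topology Pool.Agent.TH932.Abs Pool.Agent.TH932.Germs Pool.Agent.TH932.Chi
open Pool.Agent.TH932.Words Pool.Agent.TH932.Scale Pool.Agent.TH932.S2

/-- a base and its axis -/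
structure AC where
  p : ℕ
  q : ℕ
  hp : 2 ≤ p
  hq : 2 ≤ q
  hpq : IsCoprime (q : ℤ) (p : ℤ)
  b : ℕ
  em : ℝ → ℝ × ℝ
  hem : (b = p ∧ em = fun t => (-t, 0)) ∨ (b = q ∧ em = fun t => (0, t))
  L : ℕ → ℝ
  tL : Tendsto L atTop atTop

namespace AC

variable (X : AC)

lemma hb : 2 ≤ X.b := by
  rcases X.hem with ⟨h, _⟩ | ⟨h, _⟩
  · rw [h]; exact X.hp
  · rw [h]; exact X.hq

lemma b0 : (0 : ℝ) < X.b := by have := X.hb; positivity
lemma b1 : (1 : ℝ) < X.b := by have := X.hb; exact_mod_cast (by omega : 1 < X.b)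
lemma bz0 : (0 : ℤ) < X.b := by have := X.hb; omega
lemma logb : 0 < Real.log X.b := Real.log_pos X.b1
lemma bq0 : (X.b : ℚ) ≠ 0 := by
  have := X.hb
  have : X.b ≠ 0 := by omega
  exact_mod_cast this

/-- the constant field -/
noncomputable abbrev K : Subfield GG := KK X.L X.tL

/-- the axis -/
def Ax (g : ℝ × ℝ) : Prop := ∃ t : ℝ, 0 ≤ t ∧ g = X.em t

lemma em_zero : X.em 0 = 0 := by
  rcases X.hem with ⟨_, he⟩ | ⟨_, he⟩ <;> rw [he] <;> simp

lemma em_add (s t : ℝ) : X.em (s + t) = X.em s + X.em t := by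
  rcases X.hem with ⟨_, he⟩ | ⟨_, he⟩ <;> rw [he] <;> ext <;> simp <;> ring

/-- the value of the character on the axis -/
noncomputable def χ (t : ℝ) : GG := ch2 X.tL X.hp X.hq (X.em t)

/-- evaluation -/
noncomputable abbrev ev : Rg X.tL →+* GG := ev2 X.tL X.hp X.hq

/-- powers of the base -/
lemma pow_const {c : ℕ → ℕ} {t : ℝ} (ht : near X.L (fun n => (c n : ℝ)) t) :
    ∃ κ : X.K, gm (fun n => 1 / (X.b : ℚ) ^ (c n)) = (κ : GG) * X.χ t := by
  have h0 : ∀ ε : ℝ, 0 < ε → ∀ᶠ n in (UU : Filter ℕ), |(((0 : ℤ)) : ℝ) - 0 * X.L n| ≤ ε * X.L n := by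
    intro ε hε
    filter_upwards [L_nonneg X.tL] with n h2
    simp only [Int.cast_zero, zero_mul, sub_zero, abs_zero]
    positivity
  rcases X.hem with ⟨hb, he⟩ | ⟨hb, he⟩
  · obtain ⟨κ, h1, h2⟩ := exists_const2 X.tL X.hp X.hq (-t) 0
      (fun n => -((c n : ℕ) : ℤ)) (fun _ => 0) (by
        intro ε hε
        filter_upwards [ht ε hε] with n h2
        push_cast
        have : -(c n : ℝ) - -t * X.L n = -((c n : ℝ) - t * X.L n) := by ring
        rw [this, abs_neg]; exact h2) h0
    refine ⟨κ, ?_⟩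
    unfold χ
    rw [he]
    rw [← h2]
    congr 1
    funext n
    rw [hb]
    simp
  · obtain ⟨κ, h1, h2⟩ := exists_const2 X.tL X.hp X.hq 0 t (fun _ => 0)
      (fun n => ((c n : ℕ) : ℤ)) h0 (by
        intro ε hε
        filter_upwards [ht ε hε] with n h2
        push_cast
        exact h2)
    refine ⟨κ, ?_⟩
    unfold χ
    rw [he]
    rw [← h2]
    congr 1
    funext n
    rw [hb]
    simp

/-- combinations of generators with exponents on the axis -/
def Cb {Z : Type} [Fintype Z] (w : Z → GG) (S : GG) : Prop := ∃ P : Z → Rg X.tL,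
  (∀ j g, (P j).coeff g ≠ 0 → X.Ax g) ∧ S = ∑ j, X.ev (P j) * w j

variable {X}
variable {Z : Type} [Fintype Z] {w : Z → GG}

lemma Cb.add {S T : GG} (hS : X.Cb w S) (hT : X.Cb w T) : X.Cb w (S + T) := by
  obtain ⟨P, h1, h2⟩ := hS
  obtain ⟨P', h1', h2'⟩ := hT
  refine ⟨fun j => P j + P' j, fun j g hg => ?_, ?_⟩
  · by_cases h : (P j).coeff g = 0
    · apply h1' j
      intro h'
      apply hg
      rw [AddMonoidAlgebra.coeff_add, Finsupp.add_apply, h, h', add_zero]
    · exact h1 j g h
  · rw [h2, h2', ← Finset.sum_add_distrib]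
    refine Finset.sum_congr rfl fun j _ => ?_
    rw [map_add, add_mul]

lemma Cb.zero : X.Cb w 0 := by
  refine ⟨fun _ => 0, fun j g hg => absurd (by simp) hg, ?_⟩
  simp

lemma Cb.sum {ι : Type*} (s : Finset ι) (f : ι → GG) (h : ∀ i ∈ s, X.Cb w (f i)) :
    X.Cb w (∑ i ∈ s, f i) :=
  Finset.sum_induction f (X.Cb w) (fun _ _ => Cb.add) Cb.zero h

lemma Cb.mul {S : GG} (hS : X.Cb w S) (κ : X.K) {t : ℝ} (ht : 0 ≤ t) :
    X.Cb w ((κ : GG) * X.χ t * S) := by
  obtain ⟨P, h1, h2⟩ := hS
  refine ⟨fun j => AddMonoidAlgebra.single (X.em t) κ * P j, fun j g hg => ?_, ?_⟩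
  · have e : AddMonoidAlgebra.single (X.em t) κ * P j
        = ∑ g ∈ (P j).coeff.support, AddMonoidAlgebra.single (X.em t + g) (κ * (P j).coeff g) := by
      conv_lhs => rw [sum_single2 X.tL (P j)]
      rw [Finset.mul_sum]
      exact Finset.sum_congr rfl fun g _ => by rw [AddMonoidAlgebra.single_mul_single]
    change (AddMonoidAlgebra.single (X.em t) κ * P j).coeff g ≠ 0 at hg
    rw [e] at hg
    by_contra hcon
    apply hg
    have h3 : ∀ s : Finset (ℝ × ℝ), s ⊆ (P j).coeff.support →
        (∑ g ∈ s, (AddMonoidAlgebra.single (X.em t + g) (κ * (P j).coeff g) : Rg X.tL)).coeff g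
          = 0 := by
      intro s
      induction s using Finset.induction_on with
      | empty => intro _; simp
      | insert a s ha ih =>
        intro hs
        rw [Finset.sum_insert ha, AddMonoidAlgebra.coeff_add, Finsupp.add_apply,
          ih fun x hx => hs (Finset.mem_insert_of_mem hx), add_zero,
          AddMonoidAlgebra.coeff_single, Finsupp.single_eq_of_ne]
        intro h4
        apply hcon
        have h5 := hs (Finset.mem_insert_self a s)
        obtain ⟨t', ht', h6⟩ := h1 j a (Finsupp.mem_support_iff.1 h5)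
        exact ⟨t + t', by linarith, by rw [h4, X.em_add, h6]⟩
    exact h3 _ subset_rfl
  · rw [h2, Finset.mul_sum]
    refine Finset.sum_congr rfl fun j _ => ?_
    rw [map_mul, ev2_single]
    unfold χ
    ring

lemma Cb.gen (i : Z) : X.Cb w (w i) := by
  classical
  refine ⟨fun j => if j = i then 1 else 0, fun j g hg => ?_, ?_⟩
  · simp only at hg
    split_ifs at hg
    · rw [AddMonoidAlgebra.one_def, AddMonoidAlgebra.coeff_single] at hg
      have : g = 0 := by
        by_contra hne
        exact hg (Finsupp.single_eq_of_ne hne)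
      exact ⟨0, le_rfl, by rw [this, X.em_zero]⟩
    · exact absurd (by simp) hg
  · have h1 : ∀ j : Z, X.ev (if j = i then 1 else 0) * w j = if j = i then w i else 0 := by
      intro j
      split_ifs with h
      · rw [h, map_one, one_mul]
      · rw [map_zero, zero_mul]
    simp only [h1]
    rw [Finset.sum_ite_eq' Finset.univ i]
    simp

/-- a combination of part of the generators -/
lemma Cb.map {Z' : Type} [Fintype Z'] {w' : Z' → GG} (f : Z → Z') (hf : Function.Injective f)
    (hw : ∀ j, w' (f j) = w j) {S : GG} (hS : X.Cb w S) : X.Cb w' S := by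
  classical
  obtain ⟨P, h1, h2⟩ := hS
  refine ⟨fun j' => ∑ j : Z, if f j = j' then P j else 0, fun j' g hg => ?_, ?_⟩
  · by_contra hcon
    apply hg
    have h3 : ∀ s : Finset Z, ((∑ j ∈ s, if f j = j' then P j else 0 : Rg X.tL)).coeff g = 0 := by
      intro s
      induction s using Finset.induction_on with
      | empty => simp
      | insert a s ha ih =>
        rw [Finset.sum_insert ha, AddMonoidAlgebra.coeff_add, Finsupp.add_apply, ih, add_zero]
        split_ifs with h
        · by_contra h4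
          exact hcon (h1 a g h4)
        · simp
    exact h3 _
  · rw [h2]
    have h4 : ∀ j' : Z', X.ev (∑ j : Z, if f j = j' then P j else 0) * w' j' =
        ∑ j : Z, if f j = j' then X.ev (P j) * w j else 0 := by
      intro j'
      rw [map_sum, Finset.sum_mul]
      refine Finset.sum_congr rfl fun j _ => ?_
      split_ifs with h
      · rw [← h, hw]
      · rw [map_zero, zero_mul]
    simp only [h4]
    rw [Finset.sum_comm]
    refine Finset.sum_congr rfl fun j _ => ?_
    rw [Finset.sum_ite_eq Finset.univ (f j)]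
    simp

variable (X)

/-- germs of blocks are bounded at all places -/
lemma block_mem {N : ℕ → ℤ} {h : ℕ → ℕ} {H : ℝ} (hH : 0 ≤ H) (hN : ∀ n, |N n| ≤ (X.b : ℤ) ^ h n)
    (hh : ∀ n, (h n : ℝ) ≤ H * X.L n) (v : Pl) :
    gm (fun n => (N n : ℚ) / (X.b : ℚ) ^ h n) ∈ Sv X.L X.p X.q v (-(H * Real.log X.b)) := by
  have hb := X.logb
  have hB : 0 ≤ H * Real.log X.b := by positivity
  have hq := X.bq0
  have hlog : ∀ n, (h n : ℝ) * Real.log X.b ≤ H * Real.log X.b * X.L n := by
    intro n
    have h1 := hh n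
    calc (h n : ℝ) * Real.log X.b ≤ H * X.L n * Real.log X.b := by gcongr
      _ = H * Real.log X.b * X.L n := by ring
  unfold Sv
  rw [mem_SS]
  intro ε hε
  filter_upwards [L_nonneg X.tL] with n h1
  have h6 : 0 ≤ ε * X.L n := by positivity
  have h7 : 0 ≤ H * Real.log X.b * X.L n := by positivity
  have own : ∀ M : Submonoid ℤ, Rb X.b M (X.L n) ε (-(H * Real.log X.b))
      ((N n : ℚ) / (X.b : ℚ) ^ h n) := by
    intro M
    refine ⟨1, 1, N n, -(h n : ℤ), one_ne_zero, ?_, M.one_mem, ?_, ?_⟩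
    · rw [Int.cast_one, abs_one]
      exact Real.one_le_exp (by positivity)
    · rw [zpow_neg, zpow_natCast]
      push_cast
      field_simp
    · have := hlog n
      push_cast
      linarith
  cases v
  · rcases X.hem with ⟨hb', _⟩ | ⟨hb', _⟩
    · have := own (cop X.p)
      simp only [Rv]
      rw [← hb']
      rw [← hb'] at this
      exact this
    · refine ⟨1, (X.b : ℤ) ^ (h n), N n, 0, one_ne_zero, ?_, ?_, ?_, ?_⟩
      · rw [Int.cast_one, abs_one]
        exact Real.one_le_exp (by positivity)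
      · rw [hb']
        exact X.hpq.pow_left
      · push_cast
        field_simp
      · push_cast
        linarith
  · rcases X.hem with ⟨hb', _⟩ | ⟨hb', _⟩
    · refine ⟨1, (X.b : ℤ) ^ (h n), N n, 0, one_ne_zero, ?_, ?_, ?_, ?_⟩
      · rw [Int.cast_one, abs_one]
        exact Real.one_le_exp (by positivity)
      · rw [hb']
        exact X.hpq.symm.pow_left
      · push_cast
        field_simp
      · push_cast
        linarith
    · have := own (cop X.q)
      simp only [Rv]
      rw [← hb']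
      rw [← hb'] at this
      exact this
  · simp only [Rv, Rinf]
    push_cast
    have hb0 := X.b0
    have h2 : |(N n : ℝ)| ≤ (X.b : ℝ) ^ h n := by exact_mod_cast hN n
    rw [abs_div, abs_of_pos (by positivity : (0 : ℝ) < (X.b : ℝ) ^ h n)]
    have h3 : |(N n : ℝ)| / (X.b : ℝ) ^ h n ≤ 1 := by
      rw [div_le_one (by positivity)]; exact h2
    refine h3.trans (Real.one_le_exp ?_)
    nlinarith

lemma block_sint {N : ℕ → ℤ} {h : ℕ → ℕ} {H : ℝ} (hH : 0 ≤ H) (hh : ∀ n, (h n : ℝ) ≤ H * X.L n) :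
    Sint X.L X.p X.q (gm (fun n => (N n : ℚ) / (X.b : ℚ) ^ h n)) := by
  have hb := X.logb
  have hB : 0 ≤ H * Real.log X.b := by positivity
  have hq := X.bq0
  refine ⟨-(H * Real.log X.b), ?_⟩
  rw [mem_SS]
  intro ε hε
  filter_upwards [L_nonneg X.tL] with n h1
  have h6 : 0 ≤ ε * X.L n := by positivity
  have h7 : 0 ≤ H * Real.log X.b * X.L n := by positivity
  have hlog : (h n : ℝ) * Real.log X.b ≤ H * Real.log X.b * X.L n := by
    have h1 := hh n
    calc (h n : ℝ) * Real.log X.b ≤ H * X.L n * Real.log X.b := by gcongr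
      _ = H * Real.log X.b * X.L n := by ring
  rcases X.hem with ⟨hb', _⟩ | ⟨hb', _⟩
  · refine ⟨1, N n, -(h n : ℤ), 0, one_ne_zero, ?_, ?_, ?_, ?_⟩
    · rw [Int.cast_one, abs_one]
      exact Real.one_le_exp (by positivity)
    · rw [zpow_neg, zpow_natCast, zpow_zero, ← hb']
      push_cast
      field_simp
    · rw [← hb']
      push_cast
      linarith
    · push_cast
      linarith
  · refine ⟨1, N n, 0, -(h n : ℤ), one_ne_zero, ?_, ?_, ?_, ?_⟩
    · rw [Int.cast_one, abs_one]
      exact Real.one_le_exp (by positivity)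
    · rw [zpow_neg, zpow_natCast, zpow_zero, ← hb']
      push_cast
      field_simp
    · push_cast
      linarith
    · rw [← hb']
      push_cast
      linarith

/-- **Adding a block and few terms.** -/
theorem rep_add {x y : ℝ} (hy : Rep X.tL X.hp X.hq X.Ax y) (z : ℕ → ℤ) (h : ℕ → ℕ) {H : ℝ}
    (hH : 0 ≤ H) (hz : ∀ n, |z n| ≤ (X.b : ℤ) ^ h n) (hh : ∀ n, (h n : ℝ) ≤ H * X.L n)
    (hE : ∀ E : ℝ, ∃ (r : ℕ) (c : Fin r → ℕ → ℚ) (m : Fin r → ℕ → ℕ),
      (∀ i, gm (c i) ∈ X.K) ∧ (∀ i, ∃ B : ℝ, ∀ᶠ n in (UU : Filter ℕ), (m i n : ℝ) ≤ B * X.L n) ∧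
      ∀ᶠ n in (UU : Filter ℕ), |x - y - (((z n : ℚ) / (X.b : ℚ) ^ h n +
        ∑ i, c i n / (X.b : ℚ) ^ m i n : ℚ) : ℝ)| ≤ Real.exp (-(E * X.L n))) :
    Rep X.tL X.hp X.hq X.Ax x := by
  classical
  obtain ⟨Z, hZ, z', C, hz1, hz2, hz3⟩ := hy
  set w : Option (Option Z) → GG := fun j => match j with
    | none => 1
    | some none => gm (fun n => (z n : ℚ) / (X.b : ℚ) ^ h n)
    | some (some j) => z' j with hw
  have hlb := X.logb
  set C' : ℝ := |C| + H * Real.log X.b with hC'
  have hC0 : 0 ≤ C' := by positivity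
  refine ⟨Option (Option Z), inferInstance, w, C', fun u j => ?_, fun j => ?_, fun E => ?_⟩
  · have hF := filt_v X.tL X.hp X.hq u
    match j with
    | none =>
      have := hF.alg_mem 1
      rw [map_one] at this
      exact hF.anti (by linarith) this
    | some none =>
      refine hF.anti ?_ (X.block_mem hH hz hh u)
      have := abs_nonneg C
      rw [hC']; linarith
    | some (some j) =>
      refine hF.anti ?_ (hz1 u j)
      have := le_abs_self C
      have h0 : 0 ≤ H * Real.log X.b := by positivity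
      rw [hC']; linarith
  · match j with
    | none =>
      have := Sint.alg X.tL X.hp X.hq 1
      simpa [hw] using this
    | some none => exact X.block_sint hH hh
    | some (some j) => exact hz2 j
  · obtain ⟨P, s, hP1, hP2, hs⟩ := hz3 (E + 1)
    obtain ⟨r, c, m, hc, hm, hE'⟩ := hE (E + 1)
    have k1 : X.Cb w (gm s) :=
      Cb.map (X := X) (w := z') (fun j => some (some j)) (fun a b hab => by simpa using hab)
        (fun j => rfl) ⟨P, hP1, hP2⟩
    have k2 : X.Cb w (gm (fun n => (z n : ℚ) / (X.b : ℚ) ^ h n)) := Cb.gen (X := X) (w := w) (some none)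
    have k3 : ∀ i : Fin r, X.Cb w (gm (fun n => c i n / (X.b : ℚ) ^ m i n)) := by
      intro i
      obtain ⟨B, hB⟩ := hm i
      obtain ⟨t, ht0, _, ht⟩ := exists_st (L := X.L) X.tL (a := fun n => (m i n : ℝ)) (A := B) (by
        filter_upwards [hB] with n hn using ⟨by positivity, hn⟩)
      obtain ⟨κ, hκ⟩ := X.pow_const ht
      have e : gm (fun n => c i n / (X.b : ℚ) ^ m i n) =
          (((⟨gm (c i), hc i⟩ : X.K) * κ : X.K) : GG) * X.χ t * w none := by
        have e1 : gm (fun n => c i n / (X.b : ℚ) ^ m i n) =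
            gm (c i) * gm (fun n => 1 / (X.b : ℚ) ^ m i n) := by
          rw [gm_mul]; congr 1; funext n; ring
        rw [e1, hκ]
        simp [hw, mul_assoc]
      rw [e]
      exact (Cb.gen (X := X) (w := w) none).mul _ ht0
    have k4 := (k1.add k2).add (Cb.sum (X := X) (w := w) Finset.univ _ fun i _ => k3 i)
    have hsum : ∀ (T : Finset (Fin r)), ∑ i ∈ T, gm (fun n => c i n / (X.b : ℚ) ^ m i n) =
        gm (fun n => ∑ i ∈ T, c i n / (X.b : ℚ) ^ m i n) := by
      intro T
      induction T using Finset.induction_on with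
      | empty => simp [← gm_zero]
      | insert a T ha ih =>
        rw [Finset.sum_insert ha, ih, gm_add]
        congr 1
        funext n
        rw [Finset.sum_insert ha]
    rw [hsum, gm_add, gm_add] at k4
    obtain ⟨P', hP1', hP2'⟩ := k4
    refine ⟨P', _, hP1', hP2', ?_⟩
    filter_upwards [hs, hE', ev_of_atTop (X.tL.eventually_ge_atTop 1)] with n h1 h2 h3
    have h4 : x - ((s n + (z n : ℚ) / (X.b : ℚ) ^ h n + ∑ i, c i n / (X.b : ℚ) ^ m i n : ℚ) : ℝ) =
        (y - (s n : ℝ)) + (x - y - (((z n : ℚ) / (X.b : ℚ) ^ h n +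
        ∑ i, c i n / (X.b : ℚ) ^ m i n : ℚ) : ℝ)) := by
      push_cast
      ring
    rw [h4]
    have h5 : (2 : ℝ) ≤ Real.exp (X.L n) := by
      have := Real.add_one_le_exp (X.L n)
      linarith
    calc _ ≤ |y - (s n : ℝ)| + |x - y - (((z n : ℚ) / (X.b : ℚ) ^ h n +
        ∑ i, c i n / (X.b : ℚ) ^ m i n : ℚ) : ℝ)| := abs_add_le _ _
      _ ≤ Real.exp (-((E + 1) * X.L n)) + Real.exp (-((E + 1) * X.L n)) := add_le_add h1 h2
      _ = 2 * Real.exp (-((E + 1) * X.L n)) := by ring
      _ ≤ Real.exp (X.L n) * Real.exp (-((E + 1) * X.L n)) := by gcongr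
      _ = Real.exp (-(E * X.L n)) := by rw [← Real.exp_add]; ring_nf

/-- rational numbers -/
theorem rep_zero : Rep X.tL X.hp X.hq X.Ax 0 := by
  refine ⟨Empty, inferInstance, fun j => j.elim, 0, fun _ j => j.elim, fun j => j.elim,
    fun E => ⟨fun j => j.elim, fun _ => 0, fun j => j.elim, ?_, ?_⟩⟩
  · simp [← gm_zero]
  · exact Eventually.of_forall fun n => by simpa using (Real.exp_pos _).le

end AC

end Pool.Agent.R473.TB
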