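import Mathlib
import Pool.Agent.R473.TB.Terms

set_option autoImplicit false

/-!
# Numbers whose digits are predicted by automata
-/

namespace Pool.Agent.R473.TB

open Finset

/-- the value of a sequence of digits -/
noncomputable def V (b : ℕ) (e : ℕ → ℤ) : ℝ := ∑' k : ℕ, (e k : ℝ) / (b : ℝ) ^ (k + 1)

section V
variable {b : ℕ}

lemma term_le (hb : 2 ≤ b) {e : ℕ → ℤ} (he : ∀ k, |e k| ≤ b) (k : ℕ) :
    ‖(e k : ℝ) / (b : ℝ) ^ (k + 1)‖ ≤ (1 / 2 : ℝ) ^ k := by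
  have hb0 : (0 : ℝ) < b := by positivity
  have hb2 : (2 : ℝ) ≤ b := by exact_mod_cast hb
  have h1 : |(e k : ℝ)| ≤ b := by exact_mod_cast he k
  rw [Real.norm_eq_abs, abs_div, abs_of_pos (by positivity : (0 : ℝ) < (b : ℝ) ^ (k + 1))]
  calc |(e k : ℝ)| / (b : ℝ) ^ (k + 1) ≤ b / (b : ℝ) ^ (k + 1) := by gcongr
    _ = (1 / (b : ℝ)) ^ k := by rw [pow_succ, one_div, inv_pow]; field_simp
    _ ≤ (1 / 2 : ℝ) ^ k := by gcongr

lemma V_summable (hb : 2 ≤ b) {e : ℕ → ℤ} (he : ∀ k, |e k| ≤ b) :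
    Summable fun k : ℕ => (e k : ℝ) / (b : ℝ) ^ (k + 1) :=
  Summable.of_norm_bounded (summable_geometric_of_lt_one (by norm_num) (by norm_num))
    (term_le hb he)

lemma V_abs (hb : 2 ≤ b) {e : ℕ → ℤ} (he : ∀ k, |e k| ≤ b) : |V b e| ≤ 2 := by
  have h1 := tsum_of_norm_bounded (f := fun k : ℕ => (e k : ℝ) / (b : ℝ) ^ (k + 1))
    hasSum_geometric_two (term_le hb he)
  exact h1

lemma V_rec (hb : 2 ≤ b) {e : ℕ → ℤ} (he : ∀ k, |e k| ≤ b) :
    (b : ℝ) * V b e = e 0 + V b fun k => e (k + 1) := by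
  have hb0 : (b : ℝ) ≠ 0 := by positivity
  unfold V
  rw [(V_summable hb he).tsum_eq_zero_add, mul_add, ← tsum_mul_left]
  congr 1
  · rw [zero_add, pow_one]; field_simp
  · refine tsum_congr fun k => ?_
    rw [pow_succ (b : ℝ) (k + 1)]; field_simp

lemma V_split (hb : 2 ≤ b) {e : ℕ → ℤ} (he : ∀ k, |e k| ≤ b) (n : ℕ) :
    V b e = ∑ k ∈ range n, (e k : ℝ) / (b : ℝ) ^ (k + 1) + V b (fun k => e (n + k)) / (b : ℝ) ^ n := by
  have hb0 : (b : ℝ) ≠ 0 := by positivity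
  induction n with
  | zero => simp
  | succ n ih =>
    rw [ih, sum_range_succ]
    have h1 := V_rec hb (e := fun k => e (n + k)) fun k => he _
    have e1 : (fun k => e (n + (k + 1))) = fun k => e (n + 1 + k) := by
      funext k; congr 1; ring
    simp only [add_zero] at h1
    rw [e1] at h1
    rw [pow_succ]
    field_simp
    linarith

end V

/-- states of the automaton with transitions `step` reading the sequence `D` -/
def st {K : ℕ} (step : Fin K → ℤ → Fin K) (s0 : Fin K) (D : ℕ → ℤ) : ℕ → Fin K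
  | 0 => s0
  | k + 1 => step (st step s0 D k) (D k)

section aut
variable {K b : ℕ} (o : Fin K → ℤ) (g : Fin K → Fin K)

/-- value of the autonomous run -/
noncomputable def hv (b : ℕ) (s : Fin K) : ℝ := V b fun k => o (g^[k] s)

lemma hv_rec (hb : 2 ≤ b) (ho : ∀ s, |o s| ≤ b) (s : Fin K) :
    (b : ℝ) * hv o g b s = o s + hv o g b (g s) := by
  have h1 := V_rec hb (e := fun k => o (g^[k] s)) fun k => ho _
  simp only [Function.iterate_succ_apply, Function.iterate_zero, id_eq] at h1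
  exact h1

lemma hv_abs (hb : 2 ≤ b) (ho : ∀ s, |o s| ≤ b) (s : Fin K) : |hv o g b s| ≤ 2 :=
  V_abs hb fun k => ho _

lemma hv_int (hb : 2 ≤ b) (ho : ∀ s, |o s| ≤ b) (s : Fin K) (k : ℕ) :
    ∃ I : ℤ, (b : ℝ) ^ k * hv o g b s = I + hv o g b (g^[k] s) := by
  induction k with
  | zero => exact ⟨0, by simp⟩
  | succ k ih =>
    obtain ⟨I, hI⟩ := ih
    refine ⟨b * I + o (g^[k] s), ?_⟩
    have h1 := hv_rec o g hb ho (g^[k] s)
    rw [Function.iterate_succ_apply', pow_succ]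
    push_cast
    calc (b : ℝ) ^ k * b * hv o g b s = b * ((b : ℝ) ^ k * hv o g b s) := by ring
      _ = b * I + b * hv o g b (g^[k] s) := by rw [hI]; ring
      _ = _ := by rw [h1]; ring

lemma hv_rat (hb : 2 ≤ b) (ho : ∀ s, |o s| ≤ b) (s : Fin K) : ∃ m d : ℤ, 0 < d ∧
    d ≤ (b : ℤ) ^ K ∧ |m| ≤ 2 * (b : ℤ) ^ K ∧ hv o g b s = (m : ℝ) / d := by
  have hbz : (1 : ℤ) < b := by exact_mod_cast (by omega : 1 < b)
  obtain ⟨i, j, hij, hs⟩ := Fintype.exists_ne_map_eq_of_card_lt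
    (fun i : Fin (K + 1) => g^[(i : ℕ)] s) (by simp)
  wlog hlt : i < j generalizing i j
  · exact this j i (Ne.symm hij) hs.symm (lt_of_le_of_ne (not_lt.1 hlt) (Ne.symm hij))
  obtain ⟨I, hI⟩ := hv_int o g hb ho s i
  obtain ⟨J, hJ⟩ := hv_int o g hb ho s j
  have hs' : g^[(i : ℕ)] s = g^[(j : ℕ)] s := hs
  rw [hs'] at hI
  have hlt' : (i : ℕ) < j := hlt
  have h1 : (b : ℤ) ^ (i : ℕ) < (b : ℤ) ^ (j : ℕ) := pow_lt_pow_right₀ hbz hlt'
  have h2 : (b : ℤ) ^ (j : ℕ) ≤ (b : ℤ) ^ K := pow_le_pow_right₀ hbz.le (by omega)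
  have h3 : (0 : ℤ) < (b : ℤ) ^ (i : ℕ) := by positivity
  have e1 : (((b : ℤ) ^ (j : ℕ) - (b : ℤ) ^ (i : ℕ) : ℤ) : ℝ) * hv o g b s = ((J - I : ℤ) : ℝ) := by
    push_cast
    linarith
  have hd : (0 : ℝ) < (((b : ℤ) ^ (j : ℕ) - (b : ℤ) ^ (i : ℕ) : ℤ) : ℝ) := by
    exact_mod_cast (by linarith : (0 : ℤ) < (b : ℤ) ^ (j : ℕ) - (b : ℤ) ^ (i : ℕ))
  refine ⟨J - I, (b : ℤ) ^ (j : ℕ) - (b : ℤ) ^ (i : ℕ), by linarith, by linarith, ?_, ?_⟩
  · have h4 : |((J - I : ℤ) : ℝ)| ≤ 2 * (b : ℝ) ^ K := by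
      rw [← e1, abs_mul, abs_of_pos hd]
      have h5 := hv_abs o g hb ho s
      have h6 : (((b : ℤ) ^ (j : ℕ) - (b : ℤ) ^ (i : ℕ) : ℤ) : ℝ) ≤ (b : ℝ) ^ K := by
        exact_mod_cast (by linarith : (b : ℤ) ^ (j : ℕ) - (b : ℤ) ^ (i : ℕ) ≤ (b : ℤ) ^ K)
      calc _ ≤ (b : ℝ) ^ K * 2 := by
            apply mul_le_mul h6 h5 (abs_nonneg _) (by positivity)
        _ = _ := by ring
    exact_mod_cast h4
  · rw [← e1]
    field_simp

end aut

section pred
variable {K b : ℕ} (out : Fin K → ℤ) (step : Fin K → ℤ → Fin K) (s0 : Fin K) (D : ℕ → ℤ)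

/-- outputs outside of the range are replaced by `0` -/
def oc (b : ℕ) (s : Fin K) : ℤ := if |out s| ≤ b then out s else 0

lemma oc_le (b : ℕ) (s : Fin K) : |oc out b s| ≤ b := by
  unfold oc
  split_ifs with h
  · exact h
  · simp

/-- the autonomous step -/
def gs (b : ℕ) (s : Fin K) : Fin K := step s (oc out b s)

/-- the value at time `k` -/
noncomputable def hk (b k : ℕ) : ℝ := hv (oc out b) (gs out step b) b (st step s0 D k)

/-- the coefficient of an error -/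
noncomputable def rho (b k : ℕ) : ℝ :=
  (D k + hk out step s0 D b (k + 1)) / b - hk out step s0 D b k

lemma rho_zero (hb : 2 ≤ b) (hD : ∀ k, |D k| ≤ b) {k : ℕ} (h : out (st step s0 D k) = D k) :
    rho out step s0 D b k = 0 := by
  have hb0 : (b : ℝ) ≠ 0 := by positivity
  have h1 : oc out b (st step s0 D k) = D k := by
    unfold oc
    rw [h, if_pos (hD k)]
  have h2 := hv_rec (oc out b) (gs out step b) hb (oc_le out b) (st step s0 D k)
  have h3 : gs out step b (st step s0 D k) = st step s0 D (k + 1) := by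
    unfold gs
    rw [h1, st]
  rw [h1, h3] at h2
  unfold rho hk
  rw [← h2]
  field_simp
  ring

/-- the digits between two times -/
lemma key (hb : 2 ≤ b) (hD : ∀ k, |D k| ≤ b) (N : ℕ) {A : ℕ} (hA : N ≤ A) :
    ∑ k ∈ range A, (D k : ℝ) / (b : ℝ) ^ (k + 1) = ∑ k ∈ range N, (D k : ℝ) / (b : ℝ) ^ (k + 1) +
      hk out step s0 D b N / (b : ℝ) ^ N - hk out step s0 D b A / (b : ℝ) ^ A +
      ∑ k ∈ (Ico N A).filter (fun k => out (st step s0 D k) ≠ D k),
        rho out step s0 D b k / (b : ℝ) ^ k := by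
  have hb0 : (b : ℝ) ≠ 0 := by positivity
  have hall : ∀ A : ℕ, ∑ k ∈ (Ico N A).filter (fun k => out (st step s0 D k) ≠ D k),
        rho out step s0 D b k / (b : ℝ) ^ k = ∑ k ∈ Ico N A, rho out step s0 D b k / (b : ℝ) ^ k := by
    intro A
    rw [sum_filter]
    refine sum_congr rfl fun k _ => ?_
    split_ifs with h
    · rfl
    · rw [rho_zero out step s0 D hb hD (not_not.1 h), zero_div]
  rw [hall]
  induction A, hA using Nat.le_induction with
  | base => simp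
  | succ A hA ih =>
    rw [sum_range_succ, sum_Ico_succ_top hA, ih]
    have e1 : rho out step s0 D b A / (b : ℝ) ^ A = (D A : ℝ) / (b : ℝ) ^ (A + 1) +
        hk out step s0 D b (A + 1) / (b : ℝ) ^ (A + 1) - hk out step s0 D b A / (b : ℝ) ^ A := by
      unfold rho
      rw [pow_succ]
      field_simp
    rw [e1]
    ring

lemma hk_abs (hb : 2 ≤ b) (k : ℕ) : |hk out step s0 D b k| ≤ 2 :=
  hv_abs _ _ hb (oc_le out b) _

lemma hk_rat (hb : 2 ≤ b) (k : ℕ) : ∃ m d : ℤ, 0 < d ∧ d ≤ (b : ℤ) ^ (2 * K + 5) ∧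
    |m| ≤ (b : ℤ) ^ (2 * K + 5) ∧ hk out step s0 D b k = (m : ℝ) / d := by
  obtain ⟨m, d, h1, h2, h3, h4⟩ := hv_rat (oc out b) (gs out step b) hb (oc_le out b)
    (st step s0 D k)
  have hbz : (1 : ℤ) ≤ b := by exact_mod_cast (by omega : 1 ≤ b)
  have hbz2 : (2 : ℤ) ≤ b := by exact_mod_cast hb
  refine ⟨m, d, h1, h2.trans (pow_le_pow_right₀ hbz (by omega)), h3.trans ?_, h4⟩
  calc 2 * (b : ℤ) ^ K ≤ b * (b : ℤ) ^ K := by gcongr
    _ = (b : ℤ) ^ (K + 1) := by ring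
    _ ≤ _ := pow_le_pow_right₀ hbz (by omega)

lemma rho_rat (hb : 2 ≤ b) (hD : ∀ k, |D k| ≤ b) (k : ℕ) : ∃ m d : ℤ, 0 < d ∧
    d ≤ (b : ℤ) ^ (2 * K + 5) ∧ |m| ≤ (b : ℤ) ^ (2 * K + 5) ∧
    rho out step s0 D b k = (m : ℝ) / d := by
  obtain ⟨m, d, h1, h2, h3, h4⟩ := hv_rat (oc out b) (gs out step b) hb (oc_le out b)
    (st step s0 D k)
  obtain ⟨m', d', h1', h2', h3', h4'⟩ := hv_rat (oc out b) (gs out step b) hb (oc_le out b)
    (st step s0 D (k + 1))
  have hbz : (1 : ℤ) ≤ b := by exact_mod_cast (by omega : 1 ≤ b)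
  have hbz2 : (2 : ℤ) ≤ b := by exact_mod_cast hb
  have hP : (0 : ℤ) < (b : ℤ) ^ K := by positivity
  refine ⟨(D k * d' + m') * d - b * m * d', b * d * d', by positivity, ?_, ?_, ?_⟩
  · calc b * d * d' ≤ b * (b : ℤ) ^ K * (b : ℤ) ^ K := by gcongr
      _ = (b : ℤ) ^ (2 * K + 1) := by ring
      _ ≤ _ := pow_le_pow_right₀ hbz (by omega)
  · have hDk := hD k
    have a1 : |D k * d'| ≤ b * (b : ℤ) ^ K := by
      rw [abs_mul, abs_of_pos h1']; gcongr
    have a2 : |D k * d' + m'| ≤ b * (b : ℤ) ^ K + 2 * (b : ℤ) ^ K :=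
      (abs_add_le _ _).trans (add_le_add a1 h3')
    have a3 : |(D k * d' + m') * d| ≤ (b * (b : ℤ) ^ K + 2 * (b : ℤ) ^ K) * (b : ℤ) ^ K := by
      rw [abs_mul, abs_of_pos h1]
      exact mul_le_mul a2 h2 h1.le (by positivity)
    have a4 : |b * m * d'| ≤ b * (2 * (b : ℤ) ^ K) * (b : ℤ) ^ K := by
      rw [abs_mul, abs_mul, abs_of_pos h1', abs_of_nonneg (by positivity : (0 : ℤ) ≤ b)]
      gcongr
    calc _ ≤ |(D k * d' + m') * d| + |b * m * d'| := abs_sub _ _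
      _ ≤ (b * (b : ℤ) ^ K + 2 * (b : ℤ) ^ K) * (b : ℤ) ^ K +
          b * (2 * (b : ℤ) ^ K) * (b : ℤ) ^ K := add_le_add a3 a4
      _ = (3 * b + 2) * ((b : ℤ) ^ K * (b : ℤ) ^ K) := by ring
      _ ≤ (b : ℤ) ^ 5 * ((b : ℤ) ^ K * (b : ℤ) ^ K) := by
          gcongr
          have c1 : (b : ℤ) ^ 5 = b * (b : ℤ) ^ 4 := by ring
          have c2 : (16 : ℤ) ≤ (b : ℤ) ^ 4 := by
            calc (16 : ℤ) = 2 ^ 4 := by norm_num
              _ ≤ _ := by gcongr
          nlinarith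
      _ = _ := by ring
  · have e1 : (d : ℝ) ≠ 0 := by exact_mod_cast h1.ne'
    have e2 : (d' : ℝ) ≠ 0 := by exact_mod_cast h1'.ne'
    have e3 : (b : ℝ) ≠ 0 := by positivity
    unfold rho hk
    rw [h4, h4']
    push_cast
    field_simp

end pred

/-- listing a finite set with at most `r` elements -/
lemma listing (r : ℕ) : ∀ S : Finset ℕ, S.card ≤ r → ∃ k : Fin r → Option ℕ,
    (∀ j s, k j = some s → s ∈ S) ∧
    ∀ f : ℕ → ℝ, ∑ s ∈ S, f s = ∑ j, (k j).elim 0 f := by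
  induction r with
  | zero =>
    intro S hS
    have : S = ∅ := Finset.card_eq_zero.1 (by omega)
    subst this
    exact ⟨fun _ => none, fun j => j.elim0, fun f => by simp⟩
  | succ r ih =>
    intro S hS
    rcases S.eq_empty_or_nonempty with h | ⟨s, hs⟩
    · subst h
      exact ⟨fun _ => none, fun j s h => by simp at h, fun f => by simp⟩
    · obtain ⟨k, h1, h2⟩ := ih (S.erase s) (by rw [Finset.card_erase_of_mem hs]; omega)
      refine ⟨Fin.cons (some s) k, fun j t h => ?_, fun f => ?_⟩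
      · induction j using Fin.cases with
        | zero => rw [Fin.cons_zero] at h; cases h; exact hs
        | succ j =>
          rw [Fin.cons_succ] at h
          exact Finset.mem_of_mem_erase (h1 j t h)
      · rw [Fin.sum_univ_succ, Fin.cons_zero]
        simp only [Fin.cons_succ]
        rw [← h2, Option.elim_some, Finset.add_sum_erase _ _ hs]

end Pool.Agent.R473.TB
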