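import Mathlib
import Pool.Agent.R473.TB.Aut
import Pool.Agent.TH932.S2.G.TB2

set_option autoImplicit false

/-!
# Numbers whose digits are predicted by automata have representations
-/

namespace Pool.Agent.R473.TB

open Filter Topology Pool.Agent.TH932.Abs Pool.Agent.TH932.Germs Pool.Agent.TH932.Chi
open Pool.Agent.TH932.Words Pool.Agent.TH932.Scale Pool.Agent.TH932.S2 Finset

/-- the integer with the first digits of `D` -/
def Zd (b : ℕ) (D : ℕ → ℤ) : ℕ → ℤ
  | 0 => 0
  | k + 1 => b * Zd b D k + D k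

lemma Zd_abs {b : ℕ} (hb : 2 ≤ b) {D : ℕ → ℤ} (hD : ∀ k, |D k| ≤ (b : ℤ) - 1) (k : ℕ) :
    |Zd b D k| ≤ (b : ℤ) ^ k - 1 := by
  induction k with
  | zero => simp [Zd]
  | succ k ih =>
    have hb0 : (0 : ℤ) ≤ b := by positivity
    rw [Zd]
    calc |b * Zd b D k + D k| ≤ |b * Zd b D k| + |D k| := abs_add_le _ _
      _ = b * |Zd b D k| + |D k| := by rw [abs_mul, abs_of_nonneg hb0]
      _ ≤ b * ((b : ℤ) ^ k - 1) + ((b : ℤ) - 1) := by
          have := hD k
          gcongr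
      _ = _ := by ring

lemma Zd_eq {b : ℕ} (hb : 2 ≤ b) (D : ℕ → ℤ) (k : ℕ) :
    (Zd b D k : ℝ) / (b : ℝ) ^ k = ∑ j ∈ range k, (D j : ℝ) / (b : ℝ) ^ (j + 1) := by
  have hb0 : (b : ℝ) ≠ 0 := by positivity
  induction k with
  | zero => simp [Zd]
  | succ k ih =>
    rw [sum_range_succ, ← ih, Zd]
    push_cast
    rw [pow_succ]
    field_simp

lemma mem_K (X : AC) {m d : ℕ → ℤ} {T : ℕ → ℕ} (hT : near X.L (fun n => (T n : ℝ)) 0)
    (hm : ∀ n, |m n| ≤ (X.b : ℤ) ^ T n) (hd : ∀ n, |d n| ≤ (X.b : ℤ) ^ T n) (hd0 : ∀ n, d n ≠ 0) :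
    gm (fun n => (m n : ℚ) / d n) ∈ X.K := by
  have negl : ∀ m : ℕ → ℤ, (∀ n, |m n| ≤ (X.b : ℤ) ^ T n) → Negl X.L m := by
    intro m hm
    apply negl_of_le X.tL (M := X.b) X.b1.le hT one_pos
    refine Eventually.of_forall fun n => ?_
    have h1 : |(m n : ℝ)| ≤ (X.b : ℝ) ^ T n := by exact_mod_cast hm n
    rw [one_mul]
    refine h1.trans (le_of_eq ?_)
    rw [← Real.rpow_natCast, Real.rpow_def_of_pos X.b0]
  exact ⟨m, d, negl m hm, negl d hd, Eventually.of_forall hd0, rfl⟩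

lemma const_mem_K (X : AC) (c : ℚ) : gm (fun _ => c) ∈ X.K := by
  have hb := X.hb
  obtain ⟨t, ht⟩ : ∃ t : ℕ, (c.num.natAbs : ℤ) + c.den ≤ (X.b : ℤ) ^ t := by
    refine ⟨c.num.natAbs + c.den, ?_⟩
    have h1 : c.num.natAbs + c.den < X.b ^ (c.num.natAbs + c.den) :=
      Nat.lt_pow_self (by omega)
    exact_mod_cast h1.le
  have h1 := mem_K X (m := fun _ => c.num) (d := fun _ => (c.den : ℤ)) (T := fun _ => t)
    (near_const X.tL _) (fun n => by
      have : |c.num| = (c.num.natAbs : ℤ) := (Int.natCast_natAbs c.num).symm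
      rw [this]
      have : (0 : ℤ) ≤ c.den := by positivity
      linarith) (fun n => by
      have h2 : |(c.den : ℤ)| = (c.den : ℤ) := abs_of_nonneg (by positivity)
      rw [h2]
      have : (0 : ℤ) ≤ c.num.natAbs := by positivity
      linarith) (fun n => by exact_mod_cast c.den_ne_zero)
  have e : (fun _ : ℕ => c) = fun _ : ℕ => ((c.num : ℤ) : ℚ) / ((c.den : ℤ) : ℚ) := by
    funext n
    push_cast
    exact (Rat.num_div_den c).symm
  rw [e]
  exact h1

theorem rep_aut (X : AC) {N : ℕ → ℕ} (hLN : ∀ n, X.L n = (N n : ℝ)) {x y : ℝ}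
    (hy : Rep X.tL X.hp X.hq X.Ax y) (D : ℕ → ℤ) (hD : ∀ k, |D k| ≤ (X.b : ℤ) - 1) (c0 : ℤ)
    (hxy : x - y = c0 + V X.b D) (Ks : ℕ → ℕ) (hK : near X.L (fun n => (Ks n : ℝ)) 0)
    (out : ∀ n, Fin (Ks n) → ℤ) (step : ∀ n, Fin (Ks n) → ℤ → Fin (Ks n))
    (s0 : ∀ n, Fin (Ks n))
    (herr : ∀ i : ℕ, ∃ r : ℕ, ∀ᶠ n in (UU : Filter ℕ), ((Ico (N n) (2 ^ i * N n)).filter
      (fun k => out n (st (step n) (s0 n) D k) ≠ D k)).card ≤ r) :
    Rep X.tL X.hp X.hq X.Ax x := by
  classical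
  have hb := X.hb
  have hb0 := X.b0
  have hlb := X.logb
  have hD' : ∀ k, |D k| ≤ (X.b : ℤ) := fun k => (hD k).trans (by linarith)
  refine X.rep_add hy (fun n => Zd X.b D (N n)) (fun n => N n) (H := 1) zero_le_one
    (fun n => (Zd_abs hb hD (N n)).trans (by linarith)) (fun n => by rw [hLN, one_mul]) ?_
  intro E
  obtain ⟨i, hi⟩ : ∃ i : ℕ, |E| + 2 ≤ 2 ^ i * Real.log X.b := by
    obtain ⟨i, hi⟩ := pow_unbounded_of_one_lt ((|E| + 2) / Real.log X.b) (one_lt_two (α := ℝ))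
    refine ⟨i, ?_⟩
    rw [div_lt_iff₀ hlb] at hi
    exact hi.le
  obtain ⟨r, hr⟩ := herr i
  set S : ℕ → Finset ℕ := fun n => (Ico (N n) (2 ^ i * N n)).filter
      (fun k => out n (st (step n) (s0 n) D k) ≠ D k) with hS
  have hlist : ∀ n, ∃ k : Fin r → Option ℕ, (∀ j s, k j = some s → s ∈ S n) ∧
      ((S n).card ≤ r → ∀ f : ℕ → ℝ, ∑ s ∈ S n, f s = ∑ j, (k j).elim 0 f) := by
    intro n
    by_cases h : (S n).card ≤ r
    · obtain ⟨k, h1, h2⟩ := listing r (S n) h
      exact ⟨k, h1, fun _ => h2⟩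
    · exact ⟨fun _ => none, fun j s h => by simp at h, fun h' => absurd h' h⟩
  choose kk hk1 hk2 using hlist
  choose mr dr hr1 hr2 hr3 hr4 using fun n k => rho_rat (out n) (step n) (s0 n) D hb hD' k
  choose mh dh hh1 hh2 hh3 hh4 using fun n => hk_rat (out n) (step n) (s0 n) D hb (N n)
  have hT : near X.L (fun n => ((2 * Ks n + 5 : ℕ) : ℝ)) 0 := by
    have h1 := (hK.const_mul X.tL 2).add (near_const X.tL 5)
    simp only [mul_zero, add_zero] at h1
    refine h1.congr (Eventually.of_forall fun n => ?_)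
    push_cast
    ring
  refine ⟨r + 2, Fin.cons (fun _ => (c0 : ℚ)) (Fin.cons (fun n => (mh n : ℚ) / dh n)
    (fun j n => (kk n j).elim 0 (fun k => (mr n k : ℚ) / dr n k))),
    Fin.cons (fun _ => 0) (Fin.cons N (fun j n => (kk n j).elim 0 id)), ?_, ?_, ?_⟩
  · intro j
    induction j using Fin.cases with
    | zero => rw [Fin.cons_zero]; exact const_mem_K X _
    | succ j =>
      rw [Fin.cons_succ]
      induction j using Fin.cases with
      | zero =>
        rw [Fin.cons_zero]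
        exact mem_K X hT hh3 (fun n => by rw [abs_of_pos (hh1 n)]; exact hh2 n)
          (fun n => (hh1 n).ne')
      | succ j =>
        rw [Fin.cons_succ]
        have e : (fun n => (kk n j).elim 0 (fun k => (mr n k : ℚ) / dr n k)) =
            fun n => (((kk n j).elim 0 (fun k => mr n k) : ℤ) : ℚ) /
              (((kk n j).elim 1 (fun k => dr n k) : ℤ) : ℚ) := by
          funext n
          cases kk n j <;> simp
        rw [e]
        have hbz : (1 : ℤ) ≤ X.b := by exact_mod_cast (by omega : 1 ≤ X.b)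
        refine mem_K X hT (fun n => ?_) (fun n => ?_) (fun n => ?_)
        · cases kk n j with
          | none => simp only [Option.elim_none, abs_zero]; positivity
          | some k => exact hr3 n k
        · cases kk n j with
          | none => simp only [Option.elim_none, abs_one]; exact one_le_pow₀ hbz
          | some k =>
            simp only [Option.elim_some]
            rw [abs_of_pos (hr1 n k)]; exact hr2 n k
        · cases kk n j with
          | none => simp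
          | some k => exact (hr1 n k).ne'
  · intro j
    induction j using Fin.cases with
    | zero =>
      refine ⟨0, Eventually.of_forall fun n => ?_⟩
      rw [Fin.cons_zero]; simp
    | succ j =>
      rw [Fin.cons_succ]
      induction j using Fin.cases with
      | zero =>
        refine ⟨1, Eventually.of_forall fun n => ?_⟩
        rw [Fin.cons_zero, one_mul, hLN]
      | succ j =>
        rw [Fin.cons_succ]
        refine ⟨2 ^ i, Eventually.of_forall fun n => ?_⟩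
        rw [hLN]
        cases h : kk n j with
        | none => simp only [Option.elim_none, Nat.cast_zero]; positivity
        | some k =>
          simp only [Option.elim_some, id_eq]
          have h1 := hk1 n j k h
          rw [hS, mem_filter, mem_Ico] at h1
          exact_mod_cast h1.1.2.le
  · filter_upwards [hr, ev_of_atTop (X.tL.eventually_ge_atTop 1)] with n h1 h2
    rw [hLN] at h2 ⊢
    have hN1 : 1 ≤ N n := by exact_mod_cast h2
    have h3 : N n ≤ 2 ^ i * N n := Nat.le_mul_of_pos_left _ (by positivity)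
    have h4 := key (out n) (step n) (s0 n) D hb hD' (N n) h3
    have h5 := V_split hb hD' (2 ^ i * N n)
    have h6 := hk2 n h1 (fun k => rho (out n) (step n) (s0 n) D X.b k / (X.b : ℝ) ^ k)
    have h7 := V_abs hb (e := fun k => D (2 ^ i * N n + k)) fun k => hD' _
    have h8 := hk_abs (out n) (step n) (s0 n) D hb (2 ^ i * N n)
    have e1 : ((((Zd X.b D (N n) : ℤ) : ℚ) / (X.b : ℚ) ^ N n + ∑ j : Fin (r + 2),
        (Fin.cons (fun _ => (c0 : ℚ)) (Fin.cons (fun n => (mh n : ℚ) / dh n)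
          (fun j n => (kk n j).elim 0 (fun k => (mr n k : ℚ) / dr n k))) :
            Fin (r + 2) → ℕ → ℚ) j n / (X.b : ℚ) ^ ((Fin.cons (fun _ => 0) (Fin.cons N
            (fun j n => (kk n j).elim 0 id)) : Fin (r + 2) → ℕ → ℕ) j n) : ℚ) : ℝ) =
        (Zd X.b D (N n) : ℝ) / (X.b : ℝ) ^ N n + (c0 + (hk (out n) (step n) (s0 n) D X.b (N n) /
          (X.b : ℝ) ^ N n + ∑ s ∈ S n, rho (out n) (step n) (s0 n) D X.b s / (X.b : ℝ) ^ s)) := by
      rw [Fin.sum_univ_succ, Fin.sum_univ_succ]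
      simp only [Fin.cons_zero, Fin.cons_succ]
      push_cast
      rw [hh4, h6]
      congr 1
      congr 1
      · simp
      · congr 1
        refine sum_congr rfl fun j _ => ?_
        cases kk n j with
        | none => simp
        | some k =>
          simp only [Option.elim_some, id_eq]
          rw [hr4]
          push_cast
          rfl
    rw [e1, hxy, h5, h4, Zd_eq hb]
    have e2 : (c0 : ℝ) + (∑ k ∈ range (N n), (D k : ℝ) / (X.b : ℝ) ^ (k + 1) +
        hk (out n) (step n) (s0 n) D X.b (N n) / (X.b : ℝ) ^ N n -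
        hk (out n) (step n) (s0 n) D X.b (2 ^ i * N n) / (X.b : ℝ) ^ (2 ^ i * N n) +
        ∑ k ∈ (Ico (N n) (2 ^ i * N n)).filter (fun k => out n (st (step n) (s0 n) D k) ≠ D k),
        rho (out n) (step n) (s0 n) D X.b k / (X.b : ℝ) ^ k +
        V X.b (fun k => D (2 ^ i * N n + k)) / (X.b : ℝ) ^ (2 ^ i * N n)) -
        (∑ j ∈ range (N n), (D j : ℝ) / (X.b : ℝ) ^ (j + 1) +
        (c0 + (hk (out n) (step n) (s0 n) D X.b (N n) / (X.b : ℝ) ^ N n +
        ∑ s ∈ S n, rho (out n) (step n) (s0 n) D X.b s / (X.b : ℝ) ^ s))) =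
        (V X.b (fun k => D (2 ^ i * N n + k)) - hk (out n) (step n) (s0 n) D X.b (2 ^ i * N n)) /
          (X.b : ℝ) ^ (2 ^ i * N n) := by
      rw [hS]
      ring
    rw [e2, abs_div, abs_of_pos (by positivity : (0 : ℝ) < (X.b : ℝ) ^ (2 ^ i * N n))]
    have h9 : |V X.b (fun k => D (2 ^ i * N n + k)) -
        hk (out n) (step n) (s0 n) D X.b (2 ^ i * N n)| ≤ 4 :=
      (abs_sub _ _).trans (by linarith)
    have h10 : (X.b : ℝ) ^ (2 ^ i * N n) = Real.exp (2 ^ i * Real.log X.b * N n) := by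
      rw [← Real.rpow_natCast, Real.rpow_def_of_pos hb0]
      push_cast
      ring_nf
    rw [div_le_iff₀ (by positivity), h10, ← Real.exp_add]
    refine h9.trans ?_
    have h11 : (2 : ℝ) * N n ≤ -(E * N n) + 2 ^ i * Real.log X.b * N n := by
      have a1 : (|E| + 2) * (N n : ℝ) ≤ 2 ^ i * Real.log X.b * N n := by gcongr
      have a2 : E * (N n : ℝ) ≤ |E| * N n := by
        have := le_abs_self E
        gcongr
      linarith
    have h12 : (4 : ℝ) ≤ Real.exp (2 * N n) := by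
      have a1 := Real.add_one_le_exp (1 : ℝ)
      have a2 : Real.exp 2 = Real.exp 1 * Real.exp 1 := by rw [← Real.exp_add]; norm_num
      have a3 : Real.exp 2 ≤ Real.exp (2 * N n) := Real.exp_le_exp.2 (by linarith)
      have a4 : (4 : ℝ) ≤ Real.exp 1 * Real.exp 1 := by nlinarith
      linarith
    exact h12.trans (Real.exp_le_exp.2 h11)

/-- number of blocks of length `n` -/
noncomputable def blocks (w : ℕ → ℤ) (n : ℕ) : ℕ :=
  (Set.range fun i : ℕ => fun j : Fin n => w (i + j)).ncard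

lemma V_nonneg {b : ℕ} {u : ℕ → ℤ} (hu : ∀ k, 0 ≤ u k) : 0 ≤ V b u := by
  refine tsum_nonneg fun k => ?_
  have := hu k
  have : (0 : ℝ) ≤ u k := by exact_mod_cast this
  positivity

lemma V_le_one {b : ℕ} (hb : 2 ≤ b) {u : ℕ → ℤ} (hu : ∀ k, 0 ≤ u k ∧ u k < b) : V b u ≤ 1 := by
  have hb0 : (0 : ℝ) < b := by positivity
  refine Real.tsum_le_of_sum_range_le (fun k => ?_) fun n => ?_
  · have : (0 : ℝ) ≤ u k := by exact_mod_cast (hu k).1
    positivity
  · rw [← Zd_eq hb, div_le_one (by positivity)]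
    have h1 := Zd_abs hb (D := u) (fun k => by
      rw [abs_of_nonneg (hu k).1]
      have := (hu k).2
      omega) n
    have h2 := (abs_le.1 h1).2
    have h3 : Zd b u n ≤ (b : ℤ) ^ n := by linarith
    exact_mod_cast h3

lemma pow_V {b : ℕ} (hb : 2 ≤ b) {u : ℕ → ℤ} (hu : ∀ k, |u k| ≤ b) (k : ℕ) :
    (b : ℝ) ^ k * V b u = Zd b u k + V b fun j => u (k + j) := by
  have hb0 : (0 : ℝ) < b := by positivity
  rw [V_split hb hu k, ← Zd_eq hb]
  field_simp

lemma floor_V {b : ℕ} (hb : 2 ≤ b) {u : ℕ → ℤ} (hu : ∀ k, 0 ≤ u k ∧ u k < b)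
    (hirr : Irrational (V b u)) (k : ℕ) : ⌊(b : ℝ) ^ k * V b u⌋ = Zd b u k := by
  have hu' : ∀ k, |u k| ≤ (b : ℤ) := fun k => by
    rw [abs_of_nonneg (hu k).1]; exact (hu k).2.le
  have h1 := pow_V hb hu' k
  have h2 := V_nonneg (b := b) (u := fun j => u (k + j)) fun j => (hu _).1
  have h3 := V_le_one hb (u := fun j => u (k + j)) fun j => hu _
  have h4 : V b (fun j => u (k + j)) ≠ 1 := by
    intro h
    rw [h] at h1
    apply hirr
    have hb0 : (0 : ℝ) < (b : ℝ) ^ k := by positivity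
    refine ⟨((Zd b u k + 1 : ℤ) : ℚ) / ((b : ℚ) ^ k), ?_⟩
    push_cast
    rw [← h1]
    field_simp
  rw [Int.floor_eq_iff, h1]
  constructor
  · linarith
  · have := lt_of_le_of_ne h3 h4
    linarith

lemma dw_V {b : ℕ} (hb : 2 ≤ b) {u : ℕ → ℤ} (hu : ∀ k, 0 ≤ u k ∧ u k < b)
    (hirr : Irrational (V b u)) (k : ℕ) : dw b (V b u) k = ((u k : ℤ) : ZMod b) := by
  unfold dw
  rw [floor_V hb hu hirr, Zd]
  push_cast
  simp

lemma cx_le {b : ℕ} (hb : 2 ≤ b) {u : ℕ → ℤ} (hu : ∀ k, 0 ≤ u k ∧ u k < b)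
    (hirr : Irrational (V b u)) (n : ℕ) : cx (dw b (V b u)) n ≤ blocks u n := by
  have hfin : (Set.range fun i : ℕ => fun j : Fin n => u (i + j)).Finite := by
    refine (Set.Finite.pi' fun _ : Fin n => Set.finite_Icc (0 : ℤ) b).subset ?_
    rintro _ ⟨i, rfl⟩ j
    exact ⟨(hu _).1, (hu _).2.le⟩
  unfold cx blocks
  have e : Set.range (fac (dw b (V b u)) n) = (fun f : Fin n → ℤ => fun j => ((f j : ℤ) : ZMod b)) ''
      (Set.range fun i : ℕ => fun j : Fin n => u (i + j)) := by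
    rw [← Set.range_comp]
    congr 1
    funext i
    funext j
    simp only [fac, Function.comp]
    exact dw_V hb hu hirr _
  rw [e]
  exact Set.ncard_image_le hfin

lemma Rep.mono {L : ℕ → ℝ} {p q : ℕ} {hL : Tendsto L atTop atTop} {hp : 2 ≤ p} {hq : 2 ≤ q}
    {A B : ℝ × ℝ → Prop} (h : ∀ g, A g → B g) {x : ℝ} (hx : Rep hL hp hq A x) :
    Rep hL hp hq B x := by
  obtain ⟨Z, hZ, z, C, h1, h2, h3⟩ := hx
  refine ⟨Z, hZ, z, C, h1, h2, fun E => ?_⟩
  obtain ⟨P, s, g1, g2, g3⟩ := h3 E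
  exact ⟨P, s, fun j g hg => h g (g1 j g hg), g2, g3⟩

/-- rational numbers have representations -/
lemma rep_rat (X : AC) (c : ℚ) : Rep X.tL X.hp X.hq X.Ax (c : ℝ) := by
  refine X.rep_add X.rep_zero (fun _ => 0) (fun _ => 0) (H := 0) le_rfl (fun n => by simp)
    (fun n => by simp) fun E => ⟨1, fun _ _ => c, fun _ _ => 0, fun _ => const_mem_K X c,
      fun _ => ⟨0, Eventually.of_forall fun n => by simp⟩, Eventually.of_forall fun n => ?_⟩
  simp only [sub_zero, Int.cast_zero, pow_zero, div_one, univ_unique, sum_const, card_singleton,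
    one_smul, zero_add, sub_self, abs_zero]
  exact (Real.exp_pos _).le

/-- the axis context of a sequence of scales -/
def mkAC {p q : ℕ} (hp : 2 ≤ p) (hq : 2 ≤ q) (hpq : IsCoprime (q : ℤ) (p : ℤ)) {b : ℕ}
    {em : ℝ → ℝ × ℝ} (hem : (b = p ∧ em = fun t => (-t, 0)) ∨ (b = q ∧ em = fun t => (0, t)))
    {N : ℕ → ℕ} (hL : Tendsto (fun n => (N n : ℝ)) atTop atTop) : AC :=
  ⟨p, q, hp, hq, hpq, b, em, hem, fun n => (N n : ℝ), hL⟩

/-- words of linear complexity have representations -/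
lemma rep_word {p q : ℕ} (hp : 2 ≤ p) (hq : 2 ≤ q) (hpq : IsCoprime (q : ℤ) (p : ℤ)) {b : ℕ}
    {em : ℝ → ℝ × ℝ} (hem : (b = p ∧ em = fun t => (-t, 0)) ∨ (b = q ∧ em = fun t => (0, t)))
    {N : ℕ → ℕ} (hN : Tendsto N atTop atTop) (hN2 : ∀ n, 2 ≤ N n)
    (hL : Tendsto (fun n => (N n : ℝ)) atTop atTop) {u : ℕ → ℤ} (hu : ∀ k, 0 ≤ u k ∧ u k < b)
    {C : ℝ} (hC : ∀ n : ℕ, 1 ≤ n → (blocks u n : ℝ) ≤ C * n) :
    Rep hL hp hq (mkAC hp hq hpq hem hL).Ax (V b u) := by
  have hb : 2 ≤ b := (mkAC hp hq hpq hem hL).hb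
  by_cases hirr : Irrational (V b u)
  · refine rep_of hp hq hpq hem hirr hN hN2 (C := C) (fun n => ?_) hL fun t ht => ⟨t, ht, rfl⟩
    have h1 := hC (N n) (by have := hN2 n; omega)
    refine le_trans ?_ h1
    exact_mod_cast cx_le hb hu hirr (N n)
  · obtain ⟨c, hc⟩ := not_not.1 hirr
    rw [← hc]
    exact rep_rat (mkAC hp hq hpq hem hL) c

end Pool.Agent.R473.TB
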