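import Mathlib
import Pool.Agent.R473.TB.Main

set_option autoImplicit false

/-!
# Predicting the digits of a number in two coprime bases
-/

namespace Pool.Agent.R473.TB

open Filter Topology Pool.Agent.TH932.Abs Pool.Agent.TH932.Germs Pool.Agent.TH932.Chi
open Pool.Agent.TH932.Words Pool.Agent.TH932.Scale Pool.Agent.TH932.S2 Finset

/-- scales without many new errors -/
lemma scales {θ : ℝ} (hθ : θ < 1) (A : ℝ) : ∃ c : ℕ, ∀ n : ℕ, ∃ M0 : ℕ, ∀ M : ℕ, M0 ≤ M →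
    ∀ F : ℕ → ℕ, (F M : ℝ) ≤ A * Real.log M → Monotone F →
    ∃ N : ℕ, n ≤ N ∧ 2 ≤ N ∧ 2 ^ n * N ≤ M ∧ (n : ℝ) * (M : ℝ) ^ θ ≤ N ∧
      ∀ i ≤ n, F (2 ^ i * N) ≤ F N + c * i := by
  set θ0 := max θ 0 with hθ0
  have h0 : 0 ≤ θ0 := le_max_right _ _
  have h1 : θ0 < 1 := max_lt hθ one_pos
  have hθθ : θ ≤ θ0 := le_max_left _ _
  set δ := 1 - θ0 with hδ
  have hδ0 : 0 < δ := by linarith
  set c : ℕ := ⌈4 * |A| / δ⌉₊ + 1 with hc
  have hc1 : |A| ≤ c * (δ / 4) := by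
    have h2 : 4 * |A| / δ ≤ c := by
      rw [hc]; push_cast
      have := Nat.le_ceil (4 * |A| / δ)
      linarith
    rw [div_le_iff₀ hδ0] at h2
    linarith
  have hc0 : (0 : ℝ) < c := by rw [hc]; positivity
  refine ⟨c, fun n => ?_⟩
  set R : ℕ := ⌈(4 * (2 * n + 3)) / (3 * δ)⌉₊ with hR
  have hR1 : (2 * n + 3 : ℝ) ≤ R * (3 * δ / 4) := by
    have h2 := Nat.le_ceil ((4 * (2 * (n : ℝ) + 3)) / (3 * δ))
    rw [← hR, div_le_iff₀ (by positivity)] at h2
    linarith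
  refine ⟨2 ^ R, fun M hM F hF hmono => ?_⟩
  have hMpos : 0 < M := lt_of_lt_of_le (by positivity) hM
  set S := Nat.log 2 M with hS
  have hS1 : 2 ^ S ≤ M := Nat.pow_log_le_self 2 hMpos.ne'
  have hS2 : M < 2 ^ (S + 1) := Nat.lt_pow_succ_log_self one_lt_two M
  have hSR : R ≤ S := Nat.le_log_of_pow_le one_lt_two hM
  have hlogM : Real.log M ≤ S + 1 := by
    have a1 : Real.log M ≤ Real.log ((2 : ℝ) ^ (S + 1)) := by
      apply Real.log_le_log (by exact_mod_cast hMpos)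
      exact_mod_cast hS2.le
    rw [Real.log_pow] at a1
    push_cast at a1
    have a2 : Real.log 2 ≤ 1 := by
      have := Real.log_two_lt_d9
      linarith
    have a3 : (0 : ℝ) ≤ S + 1 := by positivity
    nlinarith
  have hlogM0 : 0 ≤ Real.log M := Real.log_natCast_nonneg M
  have hFM : (F M : ℝ) ≤ |A| * (S + 1) := by
    refine hF.trans ?_
    calc A * Real.log M ≤ |A| * Real.log M := by gcongr; exact le_abs_self A
      _ ≤ _ := by gcongr
  set S0 : ℕ := ⌈(S + 1) * θ0⌉₊ + n + 1 with hS0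
  have hS0' : (S0 : ℝ) < (S + 1) * θ0 + n + 2 := by
    have := Nat.ceil_lt_add_one (a := ((S : ℝ) + 1) * θ0) (by positivity)
    rw [hS0]; push_cast; linarith
  have hRS : (2 * n + 3 : ℝ) ≤ (S + 1) * (3 * δ / 4) := by
    have a1 : (R : ℝ) ≤ S + 1 := by
      have : R ≤ S + 1 := by omega
      exact_mod_cast this
    have a2 : (R : ℝ) * (3 * δ / 4) ≤ (S + 1) * (3 * δ / 4) := by gcongr
    linarith
  have hS0S : S0 ≤ S := by
    have a1 : (S0 : ℝ) ≤ S := by
      have a2 : ((S : ℝ) + 1) * (3 * δ / 4) ≤ (S + 1) * δ := by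
        have : (0 : ℝ) ≤ (S + 1) * δ := by positivity
        linarith
      have a3 : ((S : ℝ) + 1) * δ = (S + 1) - (S + 1) * θ0 := by rw [hδ]; ring
      have a4 : (0 : ℝ) ≤ n := by positivity
      linarith
    exact_mod_cast a1
  obtain ⟨s, hs1, hs2⟩ := exists_max_image (Icc S0 S) (fun s => (F (2 ^ s) : ℤ) - c * s)
    ⟨S0, by simp [hS0S]⟩
  rw [mem_Icc] at hs1
  have hsn : s + n ≤ S := by
    have a1 := hs2 S0 (by simp [hS0S])
    have a2 : (F (2 ^ s) : ℝ) ≤ |A| * (S + 1) := by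
      refine le_trans ?_ hFM
      have : F (2 ^ s) ≤ F M := hmono ((Nat.pow_le_pow_right (by norm_num) hs1.2).trans hS1)
      exact_mod_cast this
    have a3 : (F (2 ^ S0) : ℝ) - c * S0 ≤ F (2 ^ s) - c * s := by exact_mod_cast a1
    have a4 : (0 : ℝ) ≤ F (2 ^ S0) := by positivity
    have a5 : |A| * ((S : ℝ) + 1) ≤ c * (δ / 4) * (S + 1) := by gcongr
    have a6 : (c : ℝ) * s ≤ c * (S0 + δ / 4 * (S + 1)) := by
      have : (c : ℝ) * (S0 + δ / 4 * (S + 1)) = c * S0 + c * (δ / 4) * (S + 1) := by ring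
      linarith
    have a7 : (s : ℝ) ≤ S0 + δ / 4 * (S + 1) := le_of_mul_le_mul_left a6 hc0
    have a8 : ((S : ℝ) + 1) * θ0 = (S + 1) - (S + 1) * δ := by rw [hδ]; ring
    have a9 : (s : ℝ) + n ≤ S := by linarith
    exact_mod_cast a9
  have hnn : n < 2 ^ n := Nat.lt_two_pow_self
  have hS0n : n + 1 ≤ S0 := by rw [hS0]; omega
  refine ⟨2 ^ s, ?_, ?_, ?_, ?_, ?_⟩
  · exact hnn.le.trans (Nat.pow_le_pow_right (by norm_num) (by omega))
  · calc 2 = 2 ^ 1 := by norm_num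
      _ ≤ 2 ^ s := Nat.pow_le_pow_right (by norm_num) (by omega)
  · rw [← pow_add]
    exact (Nat.pow_le_pow_right (by norm_num) (by omega)).trans hS1
  · have hM1 : (1 : ℝ) ≤ M := by exact_mod_cast hMpos
    have a1 : (M : ℝ) ^ θ ≤ (2 : ℝ) ^ ⌈((S : ℝ) + 1) * θ0⌉₊ := by
      calc (M : ℝ) ^ θ ≤ (M : ℝ) ^ θ0 := Real.rpow_le_rpow_of_exponent_le hM1 hθθ
        _ ≤ ((2 : ℝ) ^ (S + 1)) ^ θ0 := by
            apply Real.rpow_le_rpow (by positivity) _ h0
            exact_mod_cast hS2.le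
        _ = (2 : ℝ) ^ (((S : ℝ) + 1) * θ0) := by
            rw [← Real.rpow_natCast, ← Real.rpow_mul (by norm_num)]
            push_cast
            ring_nf
        _ ≤ (2 : ℝ) ^ ((⌈((S : ℝ) + 1) * θ0⌉₊ : ℕ) : ℝ) :=
            Real.rpow_le_rpow_of_exponent_le (by norm_num) (Nat.le_ceil _)
        _ = _ := Real.rpow_natCast _ _
    have a2 : (n : ℝ) ≤ 2 ^ n := by exact_mod_cast hnn.le
    calc (n : ℝ) * (M : ℝ) ^ θ ≤ 2 ^ n * 2 ^ ⌈((S : ℝ) + 1) * θ0⌉₊ := by gcongr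
      _ = 2 ^ (n + ⌈((S : ℝ) + 1) * θ0⌉₊) := by rw [pow_add]
      _ ≤ 2 ^ s := by
          apply pow_le_pow_right₀ (by norm_num)
          have := hs1.1
          rw [hS0] at this
          omega
      _ = _ := by push_cast; rfl
  · intro i hi
    have a1 := hs2 (s + i) (by rw [mem_Icc]; omega)
    rw [← pow_add, add_comm i s]
    push_cast at a1
    have a2 : (F (2 ^ (s + i)) : ℤ) ≤ F (2 ^ s) + c * i := by
      have : (c : ℤ) * (s + i) = c * s + c * i := by ring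
      linarith
    exact_mod_cast a2

/-- the digit with index `k` -/
noncomputable def digit (b : ℕ) (x : ℝ) (k : ℕ) : ℤ := ⌊(b : ℝ) ^ (k + 1) * x⌋ % b

lemma digit_mem {b : ℕ} (hb : 2 ≤ b) (x : ℝ) (k : ℕ) : 0 ≤ digit b x k ∧ digit b x k < b := by
  have hb0 : (0 : ℤ) < b := by positivity
  exact ⟨Int.emod_nonneg _ hb0.ne', Int.emod_lt_of_pos _ hb0⟩

lemma Zd_digit {b : ℕ} (hb : 2 ≤ b) (x : ℝ) (k : ℕ) :
    Zd b (digit b x) k = ⌊(b : ℝ) ^ k * x⌋ - (b : ℤ) ^ k * ⌊x⌋ := by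
  have hb0 : (b : ℝ) ≠ 0 := by positivity
  induction k with
  | zero => simp [Zd]
  | succ k ih =>
    rw [Zd, ih]
    have h1 : ⌊(b : ℝ) ^ k * x⌋ = ⌊(b : ℝ) ^ (k + 1) * x⌋ / b := by
      have h2 := Int.floor_div_natCast ((b : ℝ) ^ (k + 1) * x) b
      rw [← h2]
      congr 1
      rw [pow_succ]
      field_simp
    have h3 := Int.mul_ediv_add_emod ⌊(b : ℝ) ^ (k + 1) * x⌋ b
    rw [← h1] at h3
    unfold digit
    rw [pow_succ (b : ℤ)]
    linarith

lemma digit_sum {b : ℕ} (hb : 2 ≤ b) (x : ℝ) : x = ⌊x⌋ + V b (digit b x) := by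
  have hb1 : (1 : ℝ) < b := by exact_mod_cast (by omega : 1 < b)
  have hD : ∀ k, |digit b x k| ≤ (b : ℤ) := fun k => by
    rw [abs_of_nonneg (digit_mem hb x k).1]; exact (digit_mem hb x k).2.le
  have key : ∀ k : ℕ, |x - ⌊x⌋ - V b (digit b x)| ≤ 3 * ((1 : ℝ) / b) ^ k := by
    intro k
    have h1 := pow_V hb hD k
    rw [Zd_digit hb] at h1
    have h2 := V_abs hb (e := fun j => digit b x (k + j)) fun j => hD _
    have h3 := Int.floor_le ((b : ℝ) ^ k * x)
    have h4 := Int.lt_floor_add_one ((b : ℝ) ^ k * x)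
    have hp : (0 : ℝ) < (b : ℝ) ^ k := by positivity
    push_cast at h1
    have h5 : |(b : ℝ) ^ k * (x - ⌊x⌋ - V b (digit b x))| ≤ 3 := by
      have e : (b : ℝ) ^ k * (x - ⌊x⌋ - V b (digit b x)) =
          ((b : ℝ) ^ k * x - ⌊(b : ℝ) ^ k * x⌋) - V b (fun j => digit b x (k + j)) := by
        linarith
      rw [e]
      have h6 : |(b : ℝ) ^ k * x - ⌊(b : ℝ) ^ k * x⌋| ≤ 1 := by
        rw [abs_of_nonneg (by linarith)]; linarith
      exact (abs_sub _ _).trans (by linarith)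
    rw [abs_mul, abs_of_pos hp] at h5
    rw [one_div, inv_pow, ← div_eq_mul_inv, le_div_iff₀ hp]
    linarith
  have h1 : Tendsto (fun k : ℕ => 3 * ((1 : ℝ) / b) ^ k) atTop (𝓝 (3 * 0)) := by
    refine Tendsto.const_mul _ (tendsto_pow_atTop_nhds_zero_of_lt_one (by positivity) ?_)
    rw [div_lt_one (by linarith)]
    exact hb1
  rw [mul_zero] at h1
  have h2 : |x - ⌊x⌋ - V b (digit b x)| ≤ 0 := ge_of_tendsto' h1 key
  have h3 := abs_eq_zero.1 (le_antisymm h2 (abs_nonneg _))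
  linarith

lemma V_sub {b : ℕ} (hb : 2 ≤ b) {e f : ℕ → ℤ} (he : ∀ k, |e k| ≤ b) (hf : ∀ k, |f k| ≤ b) :
    V b (fun k => e k - f k) = V b e - V b f := by
  unfold V
  rw [← (V_summable hb he).tsum_sub (V_summable hb hf)]
  refine tsum_congr fun k => ?_
  push_cast
  ring

/-- the number of wrong predictions -/
def errs {K : ℕ} (out : Fin K → ℤ) (step : Fin K → ℤ → Fin K) (s0 : Fin K) (D : ℕ → ℤ) (M : ℕ) :
    ℕ := ((range M).filter fun k => out (st step s0 D k) ≠ D k).card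

lemma errs_mono {K : ℕ} (out : Fin K → ℤ) (step : Fin K → ℤ → Fin K) (s0 : Fin K) (D : ℕ → ℤ) :
    Monotone (errs out step s0 D) := by
  intro m n hmn
  unfold errs
  apply card_le_card
  apply filter_subset_filter
  exact range_subset_range.2 hmn

lemma errs_Ico {K : ℕ} (out : Fin K → ℤ) (step : Fin K → ℤ → Fin K) (s0 : Fin K) (D : ℕ → ℤ)
    {m n : ℕ} (hmn : m ≤ n) : errs out step s0 D n = errs out step s0 D m +
      ((Ico m n).filter fun k => out (st step s0 D k) ≠ D k).card := by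
  unfold errs
  rw [← card_union_of_disjoint]
  · rw [← filter_union]
    congr 2
    rw [range_eq_Ico, range_eq_Ico, Ico_union_Ico_eq_Ico (Nat.zero_le _) hmn]
  · apply disjoint_filter_filter
    rw [range_eq_Ico]
    exact Ico_disjoint_Ico_consecutive 0 m n

/-- representation of a number with predicted digits -/
lemma rep_pred {p q : ℕ} (hp : 2 ≤ p) (hq : 2 ≤ q) (hpq : IsCoprime (q : ℤ) (p : ℤ)) {b : ℕ}
    {em : ℝ → ℝ × ℝ} (hem : (b = p ∧ em = fun t => (-t, 0)) ∨ (b = q ∧ em = fun t => (0, t)))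
    {N : ℕ → ℕ} (hN : Tendsto N atTop atTop) (hN2 : ∀ n, 2 ≤ N n)
    (hL : Tendsto (fun n => (N n : ℝ)) atTop atTop) {u : ℕ → ℤ} (hu : ∀ k, 0 ≤ u k ∧ u k < b)
    {C : ℝ} (hC : ∀ n : ℕ, 1 ≤ n → (blocks u n : ℝ) ≤ C * n) (x : ℝ)
    (Ks : ℕ → ℕ) (hK : ∀ n : ℕ, (n : ℝ) * Ks n ≤ N n)
    (out : ∀ n, Fin (Ks n) → ℤ) (step : ∀ n, Fin (Ks n) → ℤ → Fin (Ks n))
    (s0 : ∀ n, Fin (Ks n)) (c : ℕ)
    (herr : ∀ n, ∀ i ≤ n, errs (out n) (step n) (s0 n) (fun k => digit b x k - u k) (2 ^ i * N n) ≤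
      errs (out n) (step n) (s0 n) (fun k => digit b x k - u k) (N n) + c * i) :
    Rep hL hp hq (mkAC hp hq hpq hem hL).Ax x := by
  have hb : 2 ≤ b := (mkAC hp hq hpq hem hL).hb
  have hy := rep_word hp hq hpq hem hN hN2 hL hu hC
  refine rep_aut (mkAC hp hq hpq hem hL) (N := N) (fun n => rfl) hy
    (fun k => digit b x k - u k) ?_ ⌊x⌋ ?_ Ks ?_ out step s0 ?_
  · intro k
    have h1 := digit_mem hb x k
    have h2 := hu k
    show |digit b x k - u k| ≤ (b : ℤ) - 1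
    rw [abs_le]
    constructor <;> linarith [h1.1, h1.2, h2.1, h2.2]
  · show x - V b u = ⌊x⌋ + V b (fun k => digit b x k - u k)
    rw [V_sub hb]
    · have := digit_sum hb x
      linarith
    · intro k
      rw [abs_of_nonneg (digit_mem hb x k).1]; exact (digit_mem hb x k).2.le
    · intro k
      rw [abs_of_nonneg (hu k).1]; exact (hu k).2.le
  · intro ε hε
    obtain ⟨n0, hn0⟩ := exists_nat_gt (1 / ε)
    refine ev_of_atTop ?_
    filter_upwards [eventually_ge_atTop n0, eventually_ge_atTop 1] with n h1 h2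
    show |((Ks n : ℕ) : ℝ) - 0 * (N n : ℝ)| ≤ ε * (N n : ℝ)
    rw [zero_mul, sub_zero, abs_of_nonneg (by positivity)]
    have h3 := hK n
    have h4 : (n0 : ℝ) ≤ n := by exact_mod_cast h1
    have h5 : 1 < ε * n := by
      rw [div_lt_iff₀ hε] at hn0
      nlinarith
    have h6 : (0 : ℝ) ≤ Ks n := by positivity
    have h7 : (0 : ℝ) < n := by
      have : (1 : ℝ) ≤ n := by exact_mod_cast h2
      linarith
    calc (Ks n : ℝ) ≤ (ε * n) * Ks n := by nlinarith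
      _ = ε * (n * Ks n) := by ring
      _ ≤ ε * N n := by gcongr
  · intro i
    refine ⟨c * i, ev_of_atTop ?_⟩
    filter_upwards [eventually_ge_atTop i] with n hn
    have h1 := herr n i hn
    have h2 : N n ≤ 2 ^ i * N n := Nat.le_mul_of_pos_left _ (by positivity)
    rw [errs_Ico _ _ _ _ h2] at h1
    omega

theorem main {a b : ℕ} (ha : 2 ≤ a) (hb : 2 ≤ b) (hab : Nat.Coprime a b) {x : ℝ}
    (hx : Irrational x) (hl : ¬ Liouville x) {u v : ℕ → ℤ} (hu : ∀ k, 0 ≤ u k ∧ u k < a)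
    (hv : ∀ k, 0 ≤ v k ∧ v k < b) {C : ℝ} (hCu : ∀ n : ℕ, 1 ≤ n → (blocks u n : ℝ) ≤ C * n)
    (hCv : ∀ n : ℕ, 1 ≤ n → (blocks v n : ℝ) ≤ C * n) {θ : ℝ} (hθ : θ < 1) (A : ℝ) :
    ∃ M0 : ℕ, ∀ M : ℕ, M0 ≤ M → ∀ (K L : ℕ), (K : ℝ) ≤ (M : ℝ) ^ θ → (L : ℝ) ≤ (M : ℝ) ^ θ →
      ∀ (o : Fin K → ℤ) (g : Fin K → ℤ → Fin K) (s : Fin K)
        (o' : Fin L → ℤ) (g' : Fin L → ℤ → Fin L) (s' : Fin L),
      A * Real.log M < errs o g s (fun k => digit a x k - u k) M +
        errs o' g' s' (fun k => digit b x k - v k) M := by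
  by_contra hcon
  push Not at hcon
  obtain ⟨c, hc⟩ := scales hθ A
  choose M0 hM0 using hc
  choose M hM K L hK hL o g s o' g' s' hE using fun n : ℕ => hcon (M0 n)
  set F : ℕ → ℕ → ℕ := fun n t => errs (o n) (g n) (s n) (fun k => digit a x k - u k) t +
    errs (o' n) (g' n) (s' n) (fun k => digit b x k - v k) t with hF
  have hmono : ∀ n, Monotone (F n) := fun n => (errs_mono _ _ _ _).add (errs_mono _ _ _ _)
  choose N hN1 hN2 hN3 hN4 hN5 using fun n => hM0 n (M n) (hM n) (F n) (by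
    rw [hF]; push_cast; exact hE n) (hmono n)
  have hN : Tendsto N atTop atTop := tendsto_atTop_mono hN1 tendsto_id
  have hLL : Tendsto (fun n => (N n : ℝ)) atTop atTop := tendsto_natCast_atTop_atTop.comp hN
  have hpq : IsCoprime (b : ℤ) (a : ℤ) := (Nat.isCoprime_iff_coprime.2 hab).symm
  have hup : ∀ n i, N n ≤ 2 ^ i * N n := fun n i => Nat.le_mul_of_pos_left _ (by positivity)
  have r1 : Rep hLL ha hb AxP x := by
    refine Rep.mono ?_ (rep_pred ha hb hpq (b := a) (em := fun t => (-t, 0)) (Or.inl ⟨rfl, rfl⟩)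
      hN hN2 hLL hu hCu x K (fun n => ?_) o g s c fun n i hi => ?_)
    · rintro w ⟨t, ht, rfl⟩
      exact ⟨by simpa [mkAC] using ht, rfl⟩
    · refine le_trans ?_ (hN4 n)
      have := hK n
      gcongr
    · have h1 := hN5 n i hi
      simp only [hF] at h1
      have h2 := errs_mono (o' n) (g' n) (s' n) (fun k => digit b x k - v k) (hup n i)
      omega
  have r2 : Rep hLL ha hb AxQ x := by
    refine Rep.mono ?_ (rep_pred ha hb hpq (b := b) (em := fun t => (0, t)) (Or.inr ⟨rfl, rfl⟩)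
      hN hN2 hLL hv hCv x L (fun n => ?_) o' g' s' c fun n i hi => ?_)
    · rintro w ⟨t, ht, rfl⟩
      exact ⟨rfl, ht⟩
    · refine le_trans ?_ (hN4 n)
      have := hL n
      gcongr
    · have h1 := hN5 n i hi
      simp only [hF] at h1
      have h2 := errs_mono (o n) (g n) (s n) (fun k => digit a x k - u k) (hup n i)
      omega
  obtain ⟨B, r, hr1, hr2⟩ := (Merge.merge su_thm kp_thm) a b ha hb hpq _ hLL x r1 r2
  unfold Liouville at hl
  push Not at hl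
  obtain ⟨m, hm⟩ := hl
  obtain ⟨n, g1, g2⟩ := (hr1.and (hr2 (m * (|B| + 1) + 1))).exists
  have hNn : (2 : ℝ) ≤ N n := by exact_mod_cast hN2 n
  -- a representation with denominator at least two
  obtain ⟨a, b, hb1, hb2, hab⟩ : ∃ (a b : ℤ), 1 < b ∧ (b : ℝ) ≤ Real.exp ((|B| + 1) * N n) ∧
      ((r n : ℚ) : ℝ) = a / b := by
    have hden : (0 : ℝ) < (r n).den := by exact_mod_cast (r n).den_pos
    refine ⟨2 * (r n).num, 2 * (r n).den, ?_, ?_, ?_⟩
    · have : 1 ≤ (r n).den := (r n).den_pos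
      omega
    · push_cast
      have e2 : (2 : ℝ) ≤ Real.exp (1 * N n) := by
        have := Real.add_one_le_exp (1 * (N n : ℝ))
        linarith
      calc (2 : ℝ) * (r n).den ≤ Real.exp (1 * N n) * Real.exp (|B| * N n) := by
            gcongr
            refine g1.trans (Real.exp_le_exp.2 ?_)
            have := le_abs_self B
            gcongr
        _ = Real.exp ((|B| + 1) * N n) := by rw [← Real.exp_add]; ring_nf
    · push_cast
      rw [mul_div_mul_left _ _ (two_ne_zero)]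
      exact Rat.cast_def (r n)
  have hb0 : (0 : ℝ) < b := by
    have : (1 : ℝ) < b := by exact_mod_cast hb1
    linarith
  have hne : x ≠ (a : ℝ) / b := by
    intro h
    exact hx ⟨(a : ℚ) / b, by rw [h]; push_cast; rfl⟩
  have h3 := hm a b hb1 hne
  rw [← hab] at h3
  have h4 : (1 : ℝ) / b ^ m ≤ Real.exp (-((m * (|B| + 1) + 1) * N n)) := h3.trans g2
  rw [div_le_iff₀ (by positivity)] at h4
  have h5 : (b : ℝ) ^ m ≤ Real.exp ((|B| + 1) * N n) ^ m := by gcongr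
  rw [← Real.exp_nat_mul] at h5
  have h6 : (1 : ℝ) ≤ Real.exp (-((m * (|B| + 1) + 1) * N n)) *
      Real.exp (m * ((|B| + 1) * N n)) := h4.trans (by gcongr)
  rw [← Real.exp_add] at h6
  have h7 : Real.exp (-((m * (|B| + 1) + 1) * N n) + m * ((|B| + 1) * N n)) < 1 := by
    rw [Real.exp_lt_one_iff]
    have e : -((m * (|B| + 1) + 1) * N n) + m * ((|B| + 1) * (N n : ℝ)) = -(N n : ℝ) := by ring
    rw [e]
    linarith
  linarith

end Pool.Agent.R473.TB
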